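import Pool.Agent.Work.MP_6e5b56_gt.Hedge.Main

/-! Locality of magnitude in Euclidean space: the inclusion-exclusion defect of two compact sets is
controlled by the region close to both `A \ B` and `B \ A`, and it decays exponentially when these
two sets are at positive distance. -/

set_option autoImplicit false

open Classical
open Filter Topology Pointwise

namespace Pool.Agent.Results.MP_6e5b56_gt.Locality

/-- Magnitude of a subset of Euclidean `n`-space: the supremum, over finite subsets `F`, of the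
sum of the entries of the inverse of the matrix `exp (-dist x y)`. -/
noncomputable def mag {n : ℕ} (S : Set (EuclideanSpace ℝ (Fin n))) : ℝ :=
  ⨆ F : Finset (EuclideanSpace ℝ (Fin n)), ⨆ (_ : (↑F : Set (EuclideanSpace ℝ (Fin n))) ⊆ S),
    ∑ i : ↥F, ∑ j : ↥F, (Matrix.of (fun x y : ↥F => Real.exp (-dist x.1 y.1)))⁻¹ i j

/-- The inclusion-exclusion defect at scale `t`. -/
noncomputable def defect {n : ℕ} (A B : Set (EuclideanSpace ℝ (Fin n))) (t : ℝ) : ℝ :=
  mag (t • (A ∪ B)) + mag (t • (A ∩ B)) - mag (t • A) - mag (t • B)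

theorem result (n : ℕ) : ∃ C c : ℝ, 0 < c ∧
    ∀ A B : Set (EuclideanSpace ℝ (Fin n)), IsCompact A → IsCompact B →
      (∀ t : ℝ, 0 < t → |defect A B t| ≤ C * t ^ n * ∫ p : EuclideanSpace ℝ (Fin n),
        Real.exp (-(c * t * (Metric.infDist p (A \ B) + Metric.infDist p (B \ A))))) ∧
      (∀ δ : ℝ, (∀ a ∈ A \ B, ∀ b ∈ B \ A, δ ≤ dist a b) → ∃ C' : ℝ, ∀ t : ℝ, 1 ≤ t →
        |defect A B t| ≤ C' * t ^ n * Real.exp (-(c * δ * t))) ∧
      (Disjoint (closure (A \ B)) (closure (B \ A)) → Tendsto (defect A B) atTop (𝓝 0)) := by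
  have h := Pool.Agent.Work.MP_6e5b56_gt.Hedge.main (V := EuclideanSpace ℝ (Fin n))
  rw [finrank_euclideanSpace_fin] at h
  exact h

end Pool.Agent.Results.MP_6e5b56_gt.Locality
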