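import Pool.Agent.Work.MP_6e5b56_gt.Wg.Main

/-! Asymptotic inclusion-exclusion for magnitude fails in the Euclidean plane even when the two
convex bodies overlap in a set with nonempty interior. -/

set_option autoImplicit false

open Classical
open Filter Topology Pointwise

namespace Pool.Agent.Results.MP_6e5b56_gt.WedgeOverlap

/-- Magnitude of a subset of the Euclidean plane: the supremum, over finite subsets `F`, of the
sum of the entries of the inverse of the matrix `exp (-dist x y)`. -/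
noncomputable def mag (S : Set (EuclideanSpace ℝ (Fin 2))) : ℝ :=
  ⨆ F : Finset (EuclideanSpace ℝ (Fin 2)), ⨆ (_ : (↑F : Set (EuclideanSpace ℝ (Fin 2))) ⊆ S),
    ∑ i : ↥F, ∑ j : ↥F, (Matrix.of (fun x y : ↥F => Real.exp (-dist x.1 y.1)))⁻¹ i j

/-- The inclusion-exclusion defect at scale `t`. -/
noncomputable def defect (A B : Set (EuclideanSpace ℝ (Fin 2))) (t : ℝ) : ℝ :=
  mag (t • (A ∪ B)) + mag (t • (A ∩ B)) - mag (t • A) - mag (t • B)

theorem result (K : ℝ) : ∃ A B : Set (EuclideanSpace ℝ (Fin 2)),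
    IsCompact A ∧ IsCompact B ∧ Convex ℝ A ∧ Convex ℝ B ∧ Convex ℝ (A ∪ B) ∧
      (interior (A ∩ B)).Nonempty ∧ (∀ᶠ t : ℝ in atTop, K ≤ defect A B t) ∧
      ¬ Tendsto (defect A B) atTop (𝓝 0) := by
  obtain ⟨A, B, h1, h2, h3, h4, h5, h6, h7⟩ := Pool.Agent.Work.MP_6e5b56_gt.Wg.main (max K 1)
  have h8 : ∀ᶠ t : ℝ in atTop, max K 1 ≤ defect A B t := h7
  refine ⟨A, B, h1, h2, h3, h4, h5, h6, h8.mono fun t ht => (le_max_left _ _).trans ht,
    fun h => ?_⟩
  obtain ⟨t, k1, k2⟩ := (h8.and (h.eventually (gt_mem_nhds one_pos))).exists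
  exact absurd ((le_max_right _ _).trans k1) (not_le.2 k2)

end Pool.Agent.Results.MP_6e5b56_gt.WedgeOverlap
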